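import Pool.Agent.H95.ESL.Stmts

set_option autoImplicit false

namespace ESL
open Finset ESP

/-- cancel the powers of `q₁` -/
lemma mdl_aux (a b : ℤ) (q₁ q₂ : ℕ) (h₁ : q₁.Prime) (h₂ : q₂.Prime) (hne : q₁ ≠ q₂)
    (hD : ¬ (q₁ : ℤ) ∣ D a b) :
    ¬ ((q₁ : ℤ) ^ 4 ∣ a * ((q₁ : ℤ) * q₂) ^ 2 ∧ (q₁ : ℤ) ^ 6 ∣ b * ((q₁ : ℤ) * q₂) ^ 3) := by
  rintro ⟨ha, _⟩
  rename_i hb
  apply hD
  have hq0 : (q₁ : ℤ) ≠ 0 := by exact_mod_cast h₁.ne_zero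
  have hcop : IsCoprime (q₁ : ℤ) (q₂ : ℤ) := by
    rw [Nat.isCoprime_iff_coprime]
    exact (Nat.coprime_primes h₁ h₂).2 hne
  have ha2 : (q₁ : ℤ) ^ 2 ∣ a * (q₂ : ℤ) ^ 2 := by
    have : (q₁ : ℤ) ^ 2 * (q₁ : ℤ) ^ 2 ∣ (q₁ : ℤ) ^ 2 * (a * (q₂ : ℤ) ^ 2) := by
      have e1 : (q₁ : ℤ) ^ 2 * (q₁ : ℤ) ^ 2 = (q₁ : ℤ) ^ 4 := by ring
      have e2 : (q₁ : ℤ) ^ 2 * (a * (q₂ : ℤ) ^ 2) = a * ((q₁ : ℤ) * q₂) ^ 2 := by ring
      rw [e1, e2]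
      exact ha
    exact (mul_dvd_mul_iff_left (pow_ne_zero 2 hq0)).1 this
  have hb2 : (q₁ : ℤ) ^ 3 ∣ b * (q₂ : ℤ) ^ 3 := by
    have : (q₁ : ℤ) ^ 3 * (q₁ : ℤ) ^ 3 ∣ (q₁ : ℤ) ^ 3 * (b * (q₂ : ℤ) ^ 3) := by
      have e1 : (q₁ : ℤ) ^ 3 * (q₁ : ℤ) ^ 3 = (q₁ : ℤ) ^ 6 := by ring
      have e2 : (q₁ : ℤ) ^ 3 * (b * (q₂ : ℤ) ^ 3) = b * ((q₁ : ℤ) * q₂) ^ 3 := by ring
      rw [e1, e2]
      exact hb
    exact (mul_dvd_mul_iff_left (pow_ne_zero 3 hq0)).1 this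
  have ha3 : (q₁ : ℤ) ∣ a :=
    (dvd_pow_self _ (by norm_num)).trans ((hcop.pow (m := 2) (n := 2)).dvd_of_dvd_mul_right ha2)
  have hb3 : (q₁ : ℤ) ∣ b :=
    (dvd_pow_self _ (by norm_num)).trans ((hcop.pow (m := 3) (n := 3)).dvd_of_dvd_mul_right hb2)
  unfold D
  exact dvd_add ((ha3.trans (dvd_pow_self _ (by norm_num))).mul_left _)
    ((hb3.trans (dvd_pow_self _ (by norm_num))).mul_left _)

theorem MDL_thm : S_MDL := by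
  intro a b hab q₁ q₂ h₁ h₂ hne h5₁ h5₂ hD₁ hD₂
  have hDeq : D (a * ((q₁ * q₂ : ℕ) : ℤ) ^ 2) (b * ((q₁ * q₂ : ℕ) : ℤ) ^ 3) =
      ((q₁ * q₂ : ℕ) : ℤ) ^ 6 * D a b := by
    unfold D
    ring
  have hd0 : ((q₁ * q₂ : ℕ) : ℤ) ≠ 0 := by
    exact_mod_cast (mul_ne_zero h₁.ne_zero h₂.ne_zero)
  refine ⟨⟨?_, ?_⟩, hDeq, ?_⟩
  · rw [hDeq]
    exact mul_ne_zero (pow_ne_zero 6 hd0) hab.1
  · intro l hl hcon
    push_cast at hcon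
    by_cases e1 : l = q₁
    · subst e1
      exact mdl_aux a b l q₂ hl h₂ hne hD₁ hcon
    by_cases e2 : l = q₂
    · subst e2
      apply mdl_aux a b l q₁ hl h₁ (Ne.symm hne) hD₂
      rw [mul_comm (l : ℤ) (q₁ : ℤ)]
      exact hcon
    have c1 : IsCoprime (l : ℤ) (q₁ : ℤ) := by
      rw [Nat.isCoprime_iff_coprime]
      exact (Nat.coprime_primes hl h₁).2 e1
    have c2 : IsCoprime (l : ℤ) (q₂ : ℤ) := by
      rw [Nat.isCoprime_iff_coprime]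
      exact (Nat.coprime_primes hl h₂).2 e2
    have c3 : IsCoprime (l : ℤ) ((q₁ : ℤ) * q₂) := c1.mul_right c2
    refine hab.2 l hl ⟨?_, ?_⟩
    · exact (c3.pow (m := 4) (n := 2)).dvd_of_dvd_mul_right hcon.1
    · exact (c3.pow (m := 6) (n := 3)).dvd_of_dvd_mul_right hcon.2
  · unfold R
    rw [hDeq, Int.natAbs_mul, Int.natAbs_pow, Int.natAbs_natCast]
    have hDn : (D a b).natAbs ≠ 0 := Int.natAbs_ne_zero.2 hab.1
    have hdn : (q₁ * q₂) ^ 6 ≠ 0 := pow_ne_zero 6 (mul_ne_zero h₁.ne_zero h₂.ne_zero)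
    have hpf : ((q₁ * q₂) ^ 6 * (D a b).natAbs).primeFactors =
        insert q₁ (insert q₂ (D a b).natAbs.primeFactors) := by
      rw [Nat.primeFactors_mul hdn hDn, Nat.primeFactors_pow _ (by norm_num),
        Nat.primeFactors_mul h₁.ne_zero h₂.ne_zero, h₁.primeFactors, h₂.primeFactors]
      ext x
      simp only [mem_union, mem_singleton, mem_insert]
      tauto
    rw [hpf, filter_insert, if_pos h5₁, filter_insert, if_pos h5₂]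
    have n2 : q₂ ∉ (D a b).natAbs.primeFactors.filter (fun p => 5 ≤ p) := by
      intro h
      rw [mem_filter] at h
      exact hD₂ (Int.natCast_dvd.2 (Nat.dvd_of_mem_primeFactors h.1))
    have n1 : q₁ ∉ insert q₂ ((D a b).natAbs.primeFactors.filter (fun p => 5 ≤ p)) := by
      intro h
      rw [mem_insert, mem_filter] at h
      rcases h with h | h
      · exact hne h
      · exact hD₁ (Int.natCast_dvd.2 (Nat.dvd_of_mem_primeFactors h.1))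
    rw [prod_insert n1, prod_insert n2]
    ring

end ESL
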